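import Mathlib
import Pool.Agent.W16.CM.Main
import Pool.Agent.W16.CM.Top3

/-!
MP_773b62_nt, Q1 (stronger than the question): there are arbitrarily large Carmichael numbers `n` with at most
`E(n) = exp ((log log n) ^ (199/200))` prime factors, all of them larger than `exp (log n / E(n))`, and
`F(n) > (1 - exp (- log n / E(n))) n`.
-/

set_option autoImplicit false

namespace Pool.Agent.Results.MP_773b62_nt.FewLargePrimes

/-- There are arbitrarily large composite `n` with `a ^ (n-1) ≡ 1 (mod n)` for all `a` coprime to `n` (Carmichael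
numbers) such that, with `E = exp ((log log n) ^ (199/200))`, the number of prime factors of `n` is at most `E`,
every prime factor `p` has `log p > (log n) / E`, and the number of Fermat liars of `n` exceeds
`(1 - exp (- (log n) / E)) n`. -/
theorem result : ∀ N : ℕ, ∃ n : ℕ, N < n ∧ 1 < n ∧ ¬ Nat.Prime n ∧
    (∀ a : ℕ, a.Coprime n → a ^ (n - 1) ≡ 1 [MOD n]) ∧
    (n.primeFactors.card : ℝ) ≤ Real.exp ((Real.log (Real.log n)) ^ (199 / 200 : ℝ)) ∧
    (∀ p : ℕ, p.Prime → p ∣ n →
      Real.log n / Real.exp ((Real.log (Real.log n)) ^ (199 / 200 : ℝ)) < Real.log p) ∧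
    (1 - Real.exp (-(Real.log n / Real.exp ((Real.log (Real.log n)) ^ (199 / 200 : ℝ))))) * (n : ℝ) <
      (((Finset.range n).filter (fun a => a ^ (n - 1) ≡ 1 [MOD n])).card : ℝ) :=
  Pool.Agent.W16.CM.top3 (Pool.Agent.W924.CM.GRP.grp
      (Pool.Agent.W261.CM.DAV.dav Pool.Agent.W344.CM.davp))
    Pool.Agent.W140.CM.kor (Pool.Agent.W460.CM.COP.cop Pool.Agent.W16.CM.prim Pool.Agent.W330.CM.bts)
    Pool.Agent.W929.CMBIN.bin Pool.Agent.W16.CM.pig2 Pool.Agent.W16.CM.mm2
    (Pool.Agent.W799.CM.qb (Pool.Agent.W381.CM.qa Pool.Agent.W898.CM.mer))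

end Pool.Agent.Results.MP_773b62_nt.FewLargePrimes
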